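import Pool.Agent.H70.CP.Defs

/-!
# The adaptive process: the potential

The state `a : ℕ → ℕ` counts the thresholds used so far, `a T` = number of the used `τ < T`.
While `ok K a 0` (`a T < T` for `1 ≤ T ≤ K`) every `τ < K` may be used; while only `ok K a 1`
(`a T < T` for `2 ≤ T ≤ K`) every `1 ≤ τ < K`; otherwise the process stops.
-/

set_option autoImplicit false

namespace Pool.Agent.H70.CQ

open Finset Pool.Agent.H70.CP

open Classical in
/-- the potential -/
noncomputable def Zp (c : ℝ) (K : ℕ) : ℕ → (ℕ → ℕ) → ℝ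
  | 0, _ => 1
  | n + 1, a =>
      if ok K a 0 then (∑ τ : Fin K, Zp c K n (upd a τ)) / (K - c / 2)
      else if ok K a 1 then
        (∑ τ : Fin K, if 1 ≤ (τ : ℕ) then Zp c K n (upd a τ) else 0) / (K - (c + 1) / 2)
      else 1

end Pool.Agent.H70.CQ
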