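import Pool.Agent.H70.CQ.Defs
import Pool.Agent.H70.CP.Count
import Pool.Agent.H70.CP.Num

/-!
# The lower bound for the potential (module of helper62)
-/

set_option autoImplicit false

namespace Pool.Agent.H70.CQ

open Finset Filter Topology Pool.Agent.H70.CP

theorem Zp_large : ∀ᶠ K : ℕ in atTop, 2 < Zp (23 / 10) K K (fun _ => 0) := by
  sorry

end Pool.Agent.H70.CQ
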